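import Pool.Agent.N89.BD.Stm
import Pool.Agent.W578.SA.TRK

/-!
Project BD (helper89): transfer of the separation of arbitrary points to large characteristic
(helper519; adaptation of `N457/GS/TSF.lean`).
-/

set_option autoImplicit false

namespace Pool.Agent.N519.BD.TSA

open MvPolynomial NumberField Pool.Agent.W659 Pool.Agent.W659.SA Pool.Agent.N89.GS Pool.Agent.N89.BD

/-- the differences -/
abbrev Del (r s m : ℕ) : Type := (Fin r × (Fin 3 × Fin 3)) ⊕ (Fin s ⊕ (Fin m × Fin m))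

/-- the variables: `V`, `W`, `u`, `u'`, `T`, `y`, `z`, `lam`, `lam'` -/
abbrev Vars (r s m n : ℕ) : Type :=
  ((Fin n × (Fin r × Fin 3)) ⊕ (Fin n × (Fin r × Fin 3))) ⊕
    (((Fin n × Fin s) ⊕ (Fin n × Fin s)) ⊕
    (((Fin n × Fin m) ⊕ (Fin n × Fin m)) ⊕
      (((Fin n × Fin n) × Del r s m) ⊕ (Fin n ⊕ Fin n))))

section

variable {r s m n : ℕ}

def vV (ij : Fin n × (Fin r × Fin 3)) : Vars r s m n := Sum.inl (Sum.inl ij)
def vW (ij : Fin n × (Fin r × Fin 3)) : Vars r s m n := Sum.inl (Sum.inr ij)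
def vu (l : Fin n × Fin s) : Vars r s m n := Sum.inr (Sum.inl (Sum.inl l))
def vu' (l : Fin n × Fin s) : Vars r s m n := Sum.inr (Sum.inl (Sum.inr l))
def vx (l : Fin n × Fin m) : Vars r s m n := Sum.inr (Sum.inr (Sum.inl (Sum.inl l)))
def vy (l : Fin n × Fin m) : Vars r s m n := Sum.inr (Sum.inr (Sum.inl (Sum.inr l)))
def vz (l : (Fin n × Fin n) × Del r s m) : Vars r s m n :=
  Sum.inr (Sum.inr (Sum.inr (Sum.inl l)))
def vl1 (l : Fin n) : Vars r s m n := Sum.inr (Sum.inr (Sum.inr (Sum.inr (Sum.inl l))))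
def vl2 (l : Fin n) : Vars r s m n := Sum.inr (Sum.inr (Sum.inr (Sum.inr (Sum.inr l))))

/-- the embedding of the variables of `G` -/
def emb (l : Fin n) : ((Fin r × Fin 3) ⊕ (Fin s ⊕ Fin m)) → Vars r s m n :=
  Sum.elim (fun ij => vV (l, ij)) (Sum.elim (fun i => vu (l, i)) (fun i => vx (l, i)))

/-- the differences of the points `q.1` and `q.2` -/
def dif {R : Type} [CommRing R] (x : Vars r s m n → R) (q : Fin n × Fin n) : Del r s m → R
  | Sum.inl (e, (j, j')) => x (vV (q.1, (e, j))) * x (vV (q.2, (e, j'))) -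
      x (vV (q.1, (e, j'))) * x (vV (q.2, (e, j)))
  | Sum.inr (Sum.inl l) => x (vu (q.1, l)) - x (vu (q.2, l))
  | Sum.inr (Sum.inr (j, j')) => x (vx (q.1, j)) * x (vx (q.2, j')) -
      x (vx (q.1, j')) * x (vx (q.2, j))

end

/-- the equations in terms of the values -/
def Sol {O k : Type} [CommRing O] [Field k] (φ : O →+* k) {r s m : ℕ} (a b : Fin r → ℤ)
    {J ι : Type} (G : J → Pol O r s m) (Λ : ι → Pol O r s m) (n : ℕ)
    (x : Vars r s m n → k) : Prop :=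
  (∀ i : Fin n × Fin r, x (vV (i.1, (i.2, 1))) ^ 2 * x (vV (i.1, (i.2, 2))) -
      (x (vV (i.1, (i.2, 0))) ^ 3 +
      (a i.2 : k) * x (vV (i.1, (i.2, 0))) * x (vV (i.1, (i.2, 2))) ^ 2 +
      (b i.2 : k) * x (vV (i.1, (i.2, 2))) ^ 3) = 0) ∧
  (∀ i : Fin n × Fin r, (∑ j : Fin 3, x (vV (i.1, (i.2, j))) * x (vW (i.1, (i.2, j)))) - 1 = 0) ∧
  (∀ l : Fin n × Fin s, x (vu l) * x (vu' l) - 1 = 0) ∧
  (∀ l : Fin n, (∑ i : Fin m, x (vx (l, i)) * x (vy (l, i))) - 1 = 0) ∧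
  (∀ q : {q : Fin n × Fin n // q.1 ≠ q.2}, (∑ δ : Del r s m,
      dif x q.1 δ * x (vz (q.1, δ))) - 1 = 0) ∧
  (∀ jl : J × Fin n, eval₂ φ (x ∘ emb jl.2) (G jl.1) = 0) ∧
  (∀ _ : Unit, (∑ l : Fin n, x (vl1 l) * x (vl2 l)) - 1 = 0) ∧
  (∀ y : ι, ∑ l : Fin n, x (vl1 l) * eval₂ φ (x ∘ emb l) (Λ y) = 0)

/-- the equations -/
noncomputable def eqs {O : Type} [CommRing O] {r s m : ℕ} (a b : Fin r → ℤ) {J ι : Type}
    (G : J → Pol O r s m) (Λ : ι → Pol O r s m) (n : ℕ) :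
    Set (MvPolynomial (Vars r s m n) O) :=
  (Set.range fun i : Fin n × Fin r => X (vV (i.1, (i.2, 1))) ^ 2 * X (vV (i.1, (i.2, 2))) -
      (X (vV (i.1, (i.2, 0))) ^ 3 +
      (a i.2 : MvPolynomial (Vars r s m n) O) * X (vV (i.1, (i.2, 0))) *
        X (vV (i.1, (i.2, 2))) ^ 2 +
        (b i.2 : MvPolynomial (Vars r s m n) O) * X (vV (i.1, (i.2, 2))) ^ 3)) ∪
  ((Set.range fun i : Fin n × Fin r =>
    (∑ j : Fin 3, X (vV (i.1, (i.2, j))) * X (vW (i.1, (i.2, j)))) - 1) ∪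
  ((Set.range fun l : Fin n × Fin s => X (vu l) * X (vu' l) - 1) ∪
  ((Set.range fun l : Fin n => (∑ i : Fin m, X (vx (l, i)) * X (vy (l, i))) - 1) ∪
  ((Set.range fun q : {q : Fin n × Fin n // q.1 ≠ q.2} => (∑ δ : Del r s m,
      dif X q.1 δ * X (vz (q.1, δ))) - 1) ∪
  ((Set.range fun jl : J × Fin n => rename (emb jl.2) (G jl.1)) ∪
  ((Set.range fun _ : Unit => (∑ l : Fin n, X (vl1 l) * X (vl2 l)) - 1) ∪
  (Set.range fun y : ι => ∑ l : Fin n, X (vl1 l) * rename (emb l) (Λ y))))))))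

lemma map_dif {O k : Type} [CommRing O] [Field k] (φ : O →+* k) {r s m n : ℕ}
    (x : Vars r s m n → k) (q : Fin n × Fin n) (δ : Del r s m) :
    eval₂Hom φ x (dif (X : Vars r s m n → MvPolynomial (Vars r s m n) O) q δ) = dif x q δ := by
  rcases δ with ⟨e, j, j'⟩ | l | ⟨j, j'⟩ <;>
  simp only [dif, map_sub, map_mul, eval₂Hom_X']

lemma eqs_iff {O k : Type} [CommRing O] [Field k] (φ : O →+* k) {r s m : ℕ} (a b : Fin r → ℤ)
    {J ι : Type} (G : J → Pol O r s m) (Λ : ι → Pol O r s m) (n : ℕ) (x : Vars r s m n → k) :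
    (∀ f ∈ Ideal.span (eqs a b G Λ n), eval₂ φ x f = 0) ↔ Sol φ a b G Λ n x := by
  have h1 : (∀ f ∈ Ideal.span (eqs a b G Λ n), eval₂ φ x f = 0) ↔ ∀ f ∈ eqs a b G Λ n,
      eval₂Hom φ x f = 0 := by
    constructor
    · intro h f hf
      exact h f (Ideal.subset_span hf)
    · intro h f hf
      have h2 : Ideal.span (eqs a b G Λ n) ≤ RingHom.ker (eval₂Hom φ x) :=
        Ideal.span_le.2 fun g hg => h g hg
      exact h2 hf
  have hr : ∀ (l : Fin n) (g : Pol O r s m),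
      eval₂Hom φ x (rename (emb l) g) = eval₂ φ (x ∘ emb l) g := fun l g => by
    rw [coe_eval₂Hom, eval₂_rename]
  rw [h1]
  unfold eqs Sol
  simp only [Set.mem_union, or_imp, forall_and, Set.forall_mem_range, map_sub, map_mul, map_pow,
    map_add, map_sum, map_one, map_intCast, hr, eval₂Hom_X', map_dif]

/-- Bezout coefficients for a nonzero vector -/
lemma bez {k ι : Type} [Field k] [Fintype ι] [DecidableEq ι] (v : ι → k) (h : ∃ i, v i ≠ 0) :
    ∃ w : ι → k, ∑ j, v j * w j = 1 := by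
  obtain ⟨j, hj⟩ := h
  refine ⟨Pi.single j (v j)⁻¹, ?_⟩
  rw [Finset.sum_eq_single j]
  · rw [Pi.single_eq_same]
    exact mul_inv_cancel₀ hj
  · intro k _ hk
    rw [Pi.single_eq_of_ne hk, mul_zero]
  · intro h
    exact absurd (Finset.mem_univ j) h

/-- proportional vectors -/
lemma prop_of {k : Type} [Field k] {m : ℕ} (v w : Fin m → k) (hw : w ≠ 0)
    (h : ∀ i j, v i * w j - v j * w i = 0) : ∃ c : k, v = c • w := by
  obtain ⟨j, hj⟩ := Function.ne_iff.1 hw
  refine ⟨v j / w j, ?_⟩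
  funext i
  have h1 := h i j
  have hj' : w j ≠ 0 := hj
  rw [Pi.smul_apply, smul_eq_mul]
  field_simp
  linear_combination h1

/-- the transfer for a given number of points -/
theorem step {K : Type} [Field K] [NumberField K] {r s m q : ℕ} (a b : Fin r → ℤ)
    (G : Fin q → Pol (𝓞 K) r s m) {ι : Type} (Λ : ι → Pol (𝓞 K) r s m) (σ : K →+* ℂ) (n : ℕ)
    (hG : ∀ (V : Fin n → Fin r → Fin 3 → ℂ) (u : Fin n → Fin s → ℂ) (T : Fin n → Fin m → ℂ),
      (∀ i, OnB a b (V i) (u i)) → (∀ i, OnF (toC σ) G (V i) (u i) (T i)) →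
      (∀ i j, i ≠ j → ¬ (SameB (V i) (u i) (V j) (u j) ∧ ∃ c : ℂ, T i = c • T j)) →
        LinearIndependent ℂ (fun i => fun x => vl (toC σ) (Λ x) (V i) (u i) (T i))) :
    ∃ p₁ : ℕ, ∀ p : ℕ, p.Prime → p₁ ≤ p → ∀ (k : Type) [Field k] [CharP k p] (φ : 𝓞 K →+* k)
      (V : Fin n → Fin r → Fin 3 → k) (u : Fin n → Fin s → k) (T : Fin n → Fin m → k),
      (∀ i, OnB a b (V i) (u i)) → (∀ i, OnF φ G (V i) (u i) (T i)) →
      (∀ i j, i ≠ j → ¬ (SameB (V i) (u i) (V j) (u j) ∧ ∃ c : k, T i = c • T j)) →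
        LinearIndependent k (fun i => fun x => vl φ (Λ x) (V i) (u i) (T i)) := by
  by_contra hcon
  push Not at hcon
  obtain ⟨x, hx⟩ := Pool.Agent.W578.SA.TRK.main K (Vars r s m n) (Ideal.span (eqs a b G Λ n)) (by
    intro N
    obtain ⟨p, hp, hNp, k, hk, hc, φ, V, u, x, hVu, hxF, hxp, hli⟩ := hcon N
    rw [Fintype.not_linearIndependent_iff] at hli
    obtain ⟨lam, hlam, i0, hi0⟩ := hli
    refine ⟨p, hp, hNp, k, hk, hc, φ, ?_⟩
    have hW : ∀ l i, ∃ W : Fin 3 → k, ∑ j, V l i j * W j = 1 := fun l i =>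
      bez _ (Function.ne_iff.1 ((hVu l).1 i).1)
    choose W hW using hW
    have hy : ∀ l, ∃ y : Fin m → k, ∑ j, x l j * y j = 1 := fun l =>
      bez _ (Function.ne_iff.1 (hxF l).1)
    choose y hy using hy
    obtain ⟨lam', hlam'⟩ := bez lam ⟨i0, hi0⟩
    let xx0 : Vars r s m n → k := Sum.elim (Sum.elim (fun ij => V ij.1 ij.2.1 ij.2.2)
        (fun ij => W ij.1 ij.2.1 ij.2.2))
      (Sum.elim (Sum.elim (fun l => u l.1 l.2) (fun l => (u l.1 l.2)⁻¹))
        (Sum.elim (Sum.elim (fun li => x li.1 li.2) (fun li => y li.1 li.2))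
          (Sum.elim (fun _ => 0) (Sum.elim lam lam'))))
    have hz : ∀ q : Fin n × Fin n, ∃ z : Del r s m → k, q.1 ≠ q.2 →
        ∑ δ : Del r s m, dif xx0 q δ * z δ = 1 := by
      intro q
      by_cases hq : q.1 = q.2
      · exact ⟨0, fun h => absurd hq h⟩
      · obtain ⟨z, hz⟩ := bez (dif xx0 q) (by
          by_contra hno
          push Not at hno
          refine absurd (hxp q.1 q.2 hq) ?_
          intro hne
          have hS : SameB (V q.1) (u q.1) (V q.2) (u q.2) := by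
            refine ⟨fun e => ?_, ?_⟩
            · refine prop_of _ _ ((hVu q.2).1 e).1 fun j j' => ?_
              exact hno (Sum.inl (e, (j, j')))
            · funext l
              exact sub_eq_zero.1 (hno (Sum.inr (Sum.inl l)))
          obtain ⟨c, hc⟩ := prop_of (x q.1) (x q.2) (hxF q.2).1
            (fun j j' => hno (Sum.inr (Sum.inr (j, j'))))
          exact hne hS c hc)
        exact ⟨z, fun _ => hz⟩
    choose z hz using hz
    let xx : Vars r s m n → k := Sum.elim (Sum.elim (fun ij => V ij.1 ij.2.1 ij.2.2)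
        (fun ij => W ij.1 ij.2.1 ij.2.2))
      (Sum.elim (Sum.elim (fun l => u l.1 l.2) (fun l => (u l.1 l.2)⁻¹))
        (Sum.elim (Sum.elim (fun li => x li.1 li.2) (fun li => y li.1 li.2))
          (Sum.elim (fun q => z q.1 q.2) (Sum.elim lam lam'))))
    have hdif : ∀ (q : Fin n × Fin n) (δ : Del r s m), dif xx q δ = dif xx0 q δ := by
      intro q δ
      rcases δ with ⟨e, j, j'⟩ | l | ⟨j, j'⟩ <;> rfl
    have hemb : ∀ l, xx ∘ emb l = Sum.elim (fun ij => V l ij.1 ij.2) (Sum.elim (u l) (x l)) := by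
      intro l
      funext w
      rcases w with ij | l | i <;> rfl
    refine ⟨xx, ?_⟩
    rw [eqs_iff]
    refine ⟨fun i => ?_, fun i => ?_, fun l => ?_, fun l => ?_, fun q => ?_, fun jl => ?_,
      fun _ => ?_, fun y => ?_⟩
    · exact sub_eq_zero.2 ((hVu i.1).1 i.2).2
    · exact sub_eq_zero.2 (hW i.1 i.2)
    · exact sub_eq_zero.2 (mul_inv_cancel₀ ((hVu l.1).2 l.2))
    · exact sub_eq_zero.2 (hy l)
    · simp only [hdif]
      exact sub_eq_zero.2 (hz q.1 q.2)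
    · rw [hemb]
      exact (hxF jl.2).2 jl.1
    · exact sub_eq_zero.2 hlam'
    · have h1 := congrFun hlam y
      rw [Finset.sum_apply] at h1
      refine Eq.trans ?_ h1
      refine Finset.sum_congr rfl fun l _ => ?_
      rw [hemb]
      rfl) σ
  rw [eqs_iff] at hx
  obtain ⟨h1, h2, h3, h4, h5, h6, hl1, hl2⟩ := hx
  have hV : ∀ l i, FD.OnE (a i) (b i)
      ((fun (l : Fin n) (i : Fin r) (j : Fin 3) => x (vV (l, (i, j)))) l i) := by
    intro l i
    refine ⟨fun h0 => ?_, sub_eq_zero.1 (h1 (l, i))⟩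
    have h7 := h2 (l, i)
    have h8 : ∀ j, x (vV (l, (i, j))) = 0 := fun j => congrFun h0 j
    simp [h8] at h7
  have hu : ∀ i l, (fun (i : Fin n) (l : Fin s) => x (vu (i, l))) i l ≠ 0 := by
    intro i l h0
    have h7 := h3 (i, l)
    have h0' : x (vu (i, l)) = 0 := h0
    simp [h0'] at h7
  have hx0 : ∀ l, (fun (l : Fin n) (i : Fin m) => x (vx (l, i))) l ≠ 0 := by
    intro l h0
    have h7 := h4 l
    have h8 : ∀ i, x (vx (l, i)) = 0 := fun i => congrFun h0 i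
    simp [h8] at h7
  have hemb : ∀ l, x ∘ emb l = Sum.elim (fun ij => x (vV (l, (ij.1, ij.2))))
      (Sum.elim (fun i => x (vu (l, i))) (fun i => x (vx (l, i)))) := by
    intro l
    funext w
    rcases w with ij | l | i <;> rfl
  have hxG : ∀ l j, vl (toC σ) (G j)
      ((fun (l : Fin n) (i : Fin r) (j : Fin 3) => x (vV (l, (i, j)))) l)
      ((fun (i : Fin n) (l : Fin s) => x (vu (i, l))) l)
      ((fun (l : Fin n) (i : Fin m) => x (vx (l, i))) l) = 0 := by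
    intro l j
    have h7 := h6 (j, l)
    rw [hemb] at h7
    exact h7
  have hne : ∀ i j : Fin n, i ≠ j →
      ¬ (SameB ((fun (l : Fin n) (i : Fin r) (j : Fin 3) => x (vV (l, (i, j)))) i)
        ((fun (i : Fin n) (l : Fin s) => x (vu (i, l))) i)
        ((fun (l : Fin n) (i : Fin r) (j : Fin 3) => x (vV (l, (i, j)))) j)
        ((fun (i : Fin n) (l : Fin s) => x (vu (i, l))) j) ∧
        ∃ c : ℂ, (fun (l : Fin n) (i : Fin m) => x (vx (l, i))) i =
        c • (fun (l : Fin n) (i : Fin m) => x (vx (l, i))) j) := by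
    rintro l l' hll ⟨⟨hVp, hup⟩, c, hc⟩
    have h7 := h5 ⟨(l, l'), hll⟩
    rw [Finset.sum_eq_zero] at h7
    · norm_num at h7
    · intro δ _
      rcases δ with ⟨e, j, j'⟩ | i | ⟨j, j'⟩
      · obtain ⟨d, hd⟩ := hVp e
        have h8 : ∀ i, x (vV (l, (e, i))) = d * x (vV (l', (e, i))) := fun i => congrFun hd i
        simp only [dif, h8]
        ring
      · have h8 : x (vu (l, i)) = x (vu (l', i)) := congrFun hup i
        simp only [dif, h8]
        ring
      · have h8 : ∀ i, x (vx (l, i)) = c * x (vx (l', i)) := fun i => congrFun hc i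
        simp only [dif, h8]
        ring
  have hli := hG (fun (l : Fin n) (i : Fin r) (j : Fin 3) => x (vV (l, (i, j))))
    (fun (i : Fin n) (l : Fin s) => x (vu (i, l)))
    (fun (l : Fin n) (i : Fin m) => x (vx (l, i))) (fun l => ⟨hV l, hu l⟩)
    (fun l => ⟨hx0 l, hxG l⟩) hne
  rw [Fintype.linearIndependent_iff] at hli
  have h9 := hli (fun l => x (vl1 l)) (by
    funext y
    rw [Finset.sum_apply]
    have h10 := hl2 y
    rw [Pi.zero_apply, ← h10]
    refine Finset.sum_congr rfl fun l _ => ?_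
    rw [hemb]
    rfl)
  have h10 := hl1 ()
  have h11 : ∀ l, x (vl1 l) = 0 := h9
  simp [h11] at h10

theorem main : S_TSA := by
  intro K _ _ r s m q a b G ι _ Λ k₀ σ hG
  have h1 : ∀ n : ℕ, ∃ p₁ : ℕ, n ≤ k₀ → ∀ p : ℕ, p.Prime → p₁ ≤ p → ∀ (k : Type) [Field k]
      [CharP k p] (φ : 𝓞 K →+* k)
      (V : Fin n → Fin r → Fin 3 → k) (u : Fin n → Fin s → k) (T : Fin n → Fin m → k),
      (∀ i, OnB a b (V i) (u i)) → (∀ i, OnF φ G (V i) (u i) (T i)) →
      (∀ i j, i ≠ j → ¬ (SameB (V i) (u i) (V j) (u j) ∧ ∃ c : k, T i = c • T j)) →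
        LinearIndependent k (fun i => fun x => vl φ (Λ x) (V i) (u i) (T i)) := by
    intro n
    by_cases hn : n ≤ k₀
    · obtain ⟨p₁, h⟩ := step a b G Λ σ n (hG n hn)
      exact ⟨p₁, fun _ => h⟩
    · exact ⟨0, fun h => absurd h hn⟩
  choose P hP using h1
  refine ⟨(Finset.range (k₀ + 1)).sup P, fun p hp hpp k _ _ φ l hl V u T hB hT hne => ?_⟩
  refine hP l hl p hp ?_ k φ V u T hB hT hne
  exact (Finset.le_sup (f := P) (Finset.mem_range.2 (Nat.lt_succ_of_le hl))).trans hpp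

end Pool.Agent.N519.BD.TSA
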